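import Pool.Agent.TH978.S13.Defs
import Pool.Agent.TH978.S13.Opr

/-!
# One point, rows with at most `w - k` elements (operator induction)
-/

namespace Pool.Agent.TH978.S13

open Finset Pool.Agent.TH176.Nag

namespace J2

variable {K : Type} [Field K] [CharZero K]

/-- a power of `y` in powers of `y - 1` -/
theorem pow_taylor (y : K) {b N : ℕ} (hb : b < N) :
    y ^ b = ∑ k ∈ range N, dsc k (b : K) * ((y - 1) ^ k / (k.factorial : K)) := by
  have h0 : ∀ k, dsc k (b : K) * ((y - 1) ^ k / (k.factorial : K)) =
      (y - 1) ^ k * 1 ^ (b - k) * (b.choose k : K) := by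
    intro k
    have hk : ((k.factorial : ℕ) : K) ≠ 0 := by exact_mod_cast Nat.factorial_ne_zero k
    unfold dsc
    rw [prod_desc_nat, one_pow]
    field_simp
  simp_rw [h0]
  have h1 : ∑ k ∈ range N, (y - 1) ^ k * 1 ^ (b - k) * (b.choose k : K) =
      ∑ k ∈ range (b + 1), (y - 1) ^ k * 1 ^ (b - k) * (b.choose k : K) := by
    symm
    apply Finset.sum_subset
    · intro k hk
      have := mem_range.1 hk
      exact mem_range.2 (by omega)
    · intro k _ hk
      have h2 : b < k := by
        by_contra h3
        exact hk (mem_range.2 (by omega))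
      rw [Nat.choose_eq_zero_of_lt h2]
      simp
  rw [h1, ← add_pow]
  congr 1
  ring

/-- the value of a column with a single Taylor coefficient at `1` -/
theorem col_single {f : (ℤ × ℤ) →₀ K} (hpos : ∀ p ∈ f.support, 0 ≤ p.2) (y : K) (c : ℤ) (k0 : ℕ)
    (h : ∀ k, k ≠ k0 → tau f c (dsc k) = 0) :
    (f.sum fun p a => if p.1 = c then a * y ^ p.2 else 0) =
      tau f c (dsc k0) * ((y - 1) ^ k0 / (k0.factorial : K)) := by
  classical
  obtain ⟨N, hN0, hN⟩ : ∃ N : ℕ, k0 < N ∧ ∀ p ∈ f.support, p.2 < N := by
    refine ⟨k0 + 1 + ∑ p ∈ f.support, p.2.toNat, by omega, ?_⟩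
    intro p hp
    have h1 := Finset.single_le_sum (f := fun p : ℤ × ℤ => p.2.toNat)
      (fun _ _ => Nat.zero_le _) hp
    have h2 := hpos p hp
    omega
  have h1 : (f.sum fun p a => if p.1 = c then a * y ^ p.2 else 0) =
      ∑ k ∈ range N, tau f c (dsc k) * ((y - 1) ^ k / (k.factorial : K)) := by
    unfold tau Finsupp.sum
    simp_rw [Finset.sum_mul]
    rw [Finset.sum_comm]
    refine Finset.sum_congr rfl fun p hp => ?_
    obtain ⟨b, hb⟩ := Int.eq_ofNat_of_zero_le (hpos p hp)
    have hbN : b < N := by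
      have := hN p hp
      rw [hb] at this
      exact_mod_cast this
    by_cases hc : p.1 = c
    · simp only [hc, if_true]
      rw [hb, zpow_natCast, pow_taylor y hbN, Finset.mul_sum]
      refine Finset.sum_congr rfl fun k _ => ?_
      push_cast
      ring
    · simp [hc]
  rw [h1]
  apply Finset.sum_eq_single k0
  · intro k _ hk
    rw [h k hk, zero_mul]
  · intro h2
    exact absurd (mem_range.2 hN0) h2

/-- Vandermonde on integer nodes -/
theorem vand_int {B : Finset ℤ} {v : ℤ → K}
    (h : ∀ l < B.card, ∑ c ∈ B, (c : K) ^ l * v c = 0) : ∀ c ∈ B, v c = 0 := by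
  classical
  have key : ∀ p : Polynomial K, p.natDegree < B.card → ∑ c ∈ B, p.eval (c : K) * v c = 0 := by
    intro p hp
    have : ∑ c ∈ B, p.eval (c : K) * v c =
        ∑ l ∈ range (B.card), p.coeff l * ∑ c ∈ B, (c : K) ^ l * v c := by
      simp only [mul_sum]
      rw [sum_comm]
      apply sum_congr rfl
      intro c _
      rw [Polynomial.eval_eq_sum_range' hp, sum_mul]
      apply sum_congr rfl
      intro l _
      ring
    rw [this]
    apply sum_eq_zero
    intro l hl
    rw [h l (mem_range.1 hl), mul_zero]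
  intro c0 hc0
  have h3 := key (∏ c ∈ B.erase c0, (Polynomial.X - Polynomial.C (c : K))) (by
    rw [Polynomial.natDegree_prod_of_monic _ _ (fun i _ => Polynomial.monic_X_sub_C _)]
    simp only [Polynomial.natDegree_X_sub_C, sum_const, smul_eq_mul, mul_one]
    rw [card_erase_of_mem hc0]
    have : 0 < B.card := card_pos.2 ⟨c0, hc0⟩
    omega)
  rw [Finset.sum_eq_single c0] at h3
  · rcases mul_eq_zero.1 h3 with h4 | h4
    · exfalso
      rw [Polynomial.eval_prod] at h4
      obtain ⟨c, hc, hc'⟩ := prod_eq_zero_iff.1 h4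
      simp only [Polynomial.eval_sub, Polynomial.eval_X, Polynomial.eval_C] at hc'
      have h5 : (c0 : K) = c := sub_eq_zero.1 hc'
      have h6 : c0 = c := by exact_mod_cast h5
      exact (mem_erase.1 hc).1 h6.symm
    · exact h4
  · intro c hc hne
    rw [Polynomial.eval_prod, prod_eq_zero (mem_erase.2 ⟨hne, hc⟩) (by simp), zero_mul]
  · intro h; exact absurd hc0 h

omit [CharZero K] in
/-- the pairing with a power of the first exponent, by columns -/
theorem pr_fst_pow (f : (ℤ × ℤ) →₀ K) (x y : K) (l : ℕ) (C : Finset ℤ)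
    (hC : ∀ p ∈ f.support, p.1 ∈ C) :
    pr f x y (fun u : K × K => u.1 ^ l * u.2 ^ 0) =
      ∑ c ∈ C, (c : K) ^ l * (x ^ c * (f.sum fun p a => if p.1 = c then a * y ^ p.2 else 0)) := by
  classical
  unfold pr Finsupp.sum
  simp_rw [Finset.mul_sum]
  rw [Finset.sum_comm]
  refine Finset.sum_congr rfl fun p hp => ?_
  rw [Finset.sum_eq_single p.1]
  · simp only [if_true, pow_zero]
    ring
  · intro c _ hc
    rw [if_neg (fun h => hc h.symm)]
    ring
  · intro h
    exact absurd (hC p hp) h

end J2

open J2 in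
/-- one point, rows `k0 ≤ k < k0 + w` with at most `w - (k - k0)` elements: only `0` has
multiplicity `w` -/
theorem rows_single {K : Type} [Field K] [CharZero K] {x y : K} (hx : x ≠ 0) (hy : y ≠ 0)
    (hy1 : y ≠ 1) (w : ℕ) : ∀ (k0 : ℕ) (f : (ℤ × ℤ) →₀ K), (∀ p ∈ f.support, 0 ≤ p.2) →
      LM f x y w →
      (∀ (c : ℤ) (k : ℕ), k < k0 ∨ k0 + w ≤ k → tau f c (dsc k) = 0) →
      (∀ k < w, ∃ B : Finset ℤ, B.card ≤ w - k ∧ ∀ c, tau f c (dsc (k0 + k)) ≠ 0 → c ∈ B) →
      f = 0 := by
  classical
  have neg_of : ∀ f : (ℤ × ℤ) →₀ K, (∀ p ∈ f.support, 0 ≤ p.2) → ∀ c b : ℤ, b < 0 →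
      f (c, b) = 0 := by
    intro f hpos c b hb
    by_contra hne
    have := hpos (c, b) (Finsupp.mem_support_iff.2 hne)
    simp only [] at this
    omega
  have zero_of : ∀ f : (ℤ × ℤ) →₀ K, (∀ p ∈ f.support, 0 ≤ p.2) →
      (∀ (c : ℤ) (l : ℕ), tau f c (dsc l) = 0) → f = 0 := by
    intro f hpos h
    ext ⟨c, b⟩
    exact eq_zero_of_tau (neg_of f hpos c) (h c) b
  induction w with
  | zero =>
    intro k0 f hpos _ htau _
    refine zero_of f hpos fun c l => htau c l ?_
    rcases lt_or_ge l k0 with h | h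
    · exact Or.inl h
    · exact Or.inr (by omega)
  | succ w ih =>
    intro k0 f hpos hLM htau hrow
    -- the operator
    have hF : opr (k0 : K) 0 f = 0 := by
      apply ih (k0 + 1)
      · rintro ⟨c, b⟩ hp
        rw [Finsupp.mem_support_iff, opr_apply] at hp
        by_contra hb
        simp only [not_le] at hb
        apply hp
        rw [neg_of f hpos c b hb]
        rcases eq_or_ne b (-1) with h1 | h1
        · subst h1
          simp
        · rw [neg_of f hpos c (b + 1) (by omega)]
          simp
      · exact LM_opr hy hLM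
      · intro c k hk
        rw [tau_opr]
        rcases eq_or_ne k k0 with h1 | h1
        · subst h1
          simp
        · rw [htau c k (by omega), mul_zero]
      · intro k hk
        obtain ⟨B, hB, hB2⟩ := hrow (k + 1) (by omega)
        refine ⟨B, by omega, fun c hc => hB2 c ?_⟩
        rw [tau_opr] at hc
        have h1 := right_ne_zero_of_mul hc
        rw [show k0 + (k + 1) = k0 + 1 + k by ring]
        exact h1
    have htau2 : ∀ (c : ℤ) (k : ℕ), k ≠ k0 → tau f c (dsc k) = 0 := by
      intro c k hk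
      have h1 := tau_opr (k0 : K) 0 f c k
      rw [hF] at h1
      have h2 : tau (0 : (ℤ × ℤ) →₀ K) c (dsc k) = 0 := by
        unfold tau
        simp
      rw [h2] at h1
      rcases mul_eq_zero.1 h1.symm with h3 | h3
      · exfalso
        rw [zero_mul, sub_zero, sub_eq_zero] at h3
        exact hk (by exact_mod_cast h3)
      · exact h3
    obtain ⟨B, hB, hB2⟩ := hrow 0 (by omega)
    -- Vandermonde
    set t : K := (y - 1) ^ k0 / (k0.factorial : K) with ht
    have ht0 : t ≠ 0 := by
      rw [ht]
      apply div_ne_zero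
      · exact pow_ne_zero _ (sub_ne_zero.2 hy1)
      · exact_mod_cast Nat.factorial_ne_zero k0
    have hv : ∀ c ∈ B, x ^ c * (tau f c (dsc k0) * t) = 0 := by
      apply vand_int
      intro l hl
      have h1 := hLM _ (mem_PF_mono (K := K) (a := l) (b := 0) (w := w + 1) (by omega))
      rw [pr_fst_pow f x y l (f.support.image Prod.fst ∪ B)
        (fun p hp => mem_union_left _ (mem_image_of_mem _ hp))] at h1
      rw [← h1]
      apply Finset.sum_subset_zero_on_sdiff subset_union_right
      · intro c hc
        have h2 : tau f c (dsc k0) = 0 := by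
          by_contra h3
          exact (mem_sdiff.1 hc).2 (hB2 c h3)
        rw [col_single hpos y c k0 (htau2 c), h2]
        ring
      · intro c _
        rw [col_single hpos y c k0 (htau2 c)]
    apply zero_of f hpos
    intro c l
    rcases eq_or_ne l k0 with h1 | h1
    · rw [h1]
      by_contra h2
      have h3 := hv c (hB2 c h2)
      rcases mul_eq_zero.1 h3 with h4 | h4
      · exact zpow_ne_zero c hx h4
      · rcases mul_eq_zero.1 h4 with h5 | h5
        · exact h2 h5
        · exact ht0 h5
    · exact htau2 c l h1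

end Pool.Agent.TH978.S13
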